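import Pool.Agent.H94.IC.Targets1

/-!
# MP_0ee698_an, modules HXA, HXP, IDT
-/

open MeasureTheory Set Filter Topology Metric
open scoped ENNReal NNReal ContDiff RealInnerProductSpace

namespace Pool.Agent.H73.IC

open Pool.Agent.H94.IC

theorem cx_add (x y : E) : cx (x + y) = cx x + cx y := by
  funext k
  simp [cx]

theorem cx_sub (x y : E) : cx (x - y) = cx x - cx y := by
  funext k
  simp [cx]

theorem cx_smul (t : ℝ) (x : E) : cx (t • x) = (t : ℂ) • cx x := by
  funext k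
  simp [cx]

theorem cx_ev (k : Fin 3) : cx (ev k) = Pi.single k 1 := by
  funext j
  unfold cx
  by_cases h : j = k
  · subst h
    simp
  · simp [h]

theorem continuous_cx : Continuous cx := by
  refine continuous_pi fun k => ?_
  unfold cx
  fun_prop

theorem hxa (hG : T_GHC) : T_HXA := by
  intro p ρ
  obtain ⟨h1, h2, -⟩ := hG (ball (cx p) ρ) isOpen_ball
  refine ⟨fun c => ⟨fun _ => (c : ℂ), h1 c, fun _ _ => rfl⟩, ?_, ?_⟩
  · rintro f g ⟨F, hF, hFx⟩ ⟨F', hF', hFx'⟩
    refine ⟨⟨fun z => F z + F' z, (h2 F F' hF hF').1, fun x hx => ?_⟩,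
      ⟨fun z => F z * F' z, (h2 F F' hF hF').2, fun x hx => ?_⟩⟩
    · change F (cx x) + F' (cx x) = ((f x + g x : ℝ) : ℂ)
      rw [hFx x hx, hFx' x hx]
      push_cast
      rfl
    · change F (cx x) * F' (cx x) = ((f x * g x : ℝ) : ℂ)
      rw [hFx x hx, hFx' x hx]
      push_cast
      rfl
  · rintro f g ⟨F, hF, hFx⟩ hfg
    refine ⟨F, hF, fun x hx => ?_⟩
    rw [hFx x hx, hfg x hx]

theorem hxp (hG : T_GHC) : T_HXP := by
  intro p ρ O f k hO hf hsub ⟨F, hF, hFx⟩
  obtain ⟨-, -, h3, -⟩ := hG (ball (cx p) ρ) isOpen_ball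
  refine ⟨DD (Pi.single k 1) F, h3 F _ hF, fun x hx => ?_⟩
  have hd : HasDerivAt (fun t : ℂ => F (cx x + t • (Pi.single k 1 : C3)))
      (DD (Pi.single k 1) F (cx x)) 0 := (hF.2 _ hx (Pi.single k 1)).hasDerivAt
  have hd1 : HasDerivAt (fun t : ℝ => F (cx x + (t : ℂ) • (Pi.single k 1 : C3)))
      (DD (Pi.single k 1) F (cx x)) 0 := by
    have h0 : HasDerivAt (fun t : ℂ => F (cx x + t • (Pi.single k 1 : C3)))
      (DD (Pi.single k 1) F (cx x)) ((0 : ℝ) : ℂ) := by simpa using hd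
    exact h0.comp_ofReal
  have hfd : DifferentiableAt ℝ f x :=
    (hf.contDiffAt (hO.mem_nhds (hsub x hx))).differentiableAt (by simp)
  have hd2 : HasDerivAt (fun t : ℝ => f (x + t • ev k)) (pd k f x) 0 := by
    have h1 : HasFDerivAt f (fderiv ℝ f x) (x + (0 : ℝ) • ev k) := by
      simpa using hfd.hasFDerivAt
    have h2 : HasDerivAt (fun t : ℝ => x + t • ev k) (ev k) 0 := by
      simpa using ((hasDerivAt_id (0 : ℝ)).smul_const (ev k)).const_add x
    exact h1.comp_hasDerivAt (0 : ℝ) h2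
  have hd3 : HasDerivAt (fun t : ℝ => ((f (x + t • ev k) : ℝ) : ℂ)) ((pd k f x : ℝ) : ℂ) 0 :=
    hd2.ofReal_comp
  have hev : (fun t : ℝ => ((f (x + t • ev k) : ℝ) : ℂ)) =ᶠ[𝓝 0]
      fun t : ℝ => F (cx x + (t : ℂ) • (Pi.single k 1 : C3)) := by
    have hc : Continuous (fun t : ℝ => cx (x + t • ev k)) :=
      continuous_cx.comp (by fun_prop)
    have h0 : cx (x + (0 : ℝ) • ev k) ∈ ball (cx p) ρ := by simpa using hx
    filter_upwards [hc.continuousAt.preimage_mem_nhds (isOpen_ball.mem_nhds h0)] with t ht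
    rw [← hFx _ ht, cx_add, cx_smul, cx_ev]
  exact hd1.unique (hd3.congr_of_eventuallyEq hev.symm)

/-- an extendable function vanishing near a real point of the ball vanishes on the real ball -/
theorem vanish {p c x : E} {ρ : ℝ} {f : E → ℝ} {F : C3 → ℂ} (hF : GH (ball (cx p) ρ) F)
    (hFx : ∀ x : E, cx x ∈ ball (cx p) ρ → F (cx x) = (f x : ℂ))
    (hc : cx c ∈ ball (cx p) ρ) (hx : cx x ∈ ball (cx p) ρ) (h0 : ∀ᶠ y in 𝓝 c, f y = 0) :
    f x = 0 := by
  set g : ℂ → C3 := fun t => cx c + t • (cx x - cx c) with hg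
  have hgc : Continuous g := by fun_prop
  set T : Set ℂ := g ⁻¹' ball (cx p) ρ with hT
  have hTo : IsOpen T := isOpen_ball.preimage hgc
  have hTc : Convex ℝ T := by
    intro s hs t ht a b ha hb hab
    have : g (a • s + b • t) = a • g s + b • g t := by
      rw [hg]
      simp only
      funext k
      simp only [Pi.add_apply, Pi.smul_apply, Pi.sub_apply, smul_eq_mul, Complex.real_smul]
      have hab' : ((a : ℂ) + (b : ℂ)) = 1 := by exact_mod_cast hab
      linear_combination (-(cx c k)) * hab' 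
    change g (a • s + b • t) ∈ ball (cx p) ρ
    rw [this]
    exact (convex_ball (cx p) ρ) hs ht ha hb hab
  have hd : DifferentiableOn ℂ (fun t => F (g t)) T := by
    intro t ht
    have h1 := hF.2 (g t) ht (cx x - cx c)
    have h2 : (fun s => F (g s)) = (fun s : ℂ => F (g t + s • (cx x - cx c))) ∘ fun s => s - t := by
      funext s
      simp only [Function.comp, hg]
      congr 1
      rw [add_assoc, ← add_smul]
      congr 2
      ring
    have h3 : DifferentiableAt ℂ (fun s => F (g s)) t := by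
      rw [h2]
      apply DifferentiableAt.comp
      · simpa using h1
      · fun_prop
    exact h3.differentiableWithinAt
  have han : AnalyticOnNhd ℂ (fun t => F (g t)) T := hd.analyticOnNhd hTo
  have h0T : (0 : ℂ) ∈ T := by
    change g 0 ∈ ball (cx p) ρ
    simpa [hg] using hc
  have h1T : (1 : ℂ) ∈ T := by
    change g 1 ∈ ball (cx p) ρ
    simpa [hg] using hx
  have hreal : ∀ t : ℝ, g (t : ℂ) = cx (c + t • (x - c)) := by
    intro t
    rw [cx_add, cx_smul, cx_sub]
  have hsmall : ∀ᶠ t : ℝ in 𝓝 0, F (g (t : ℂ)) = 0 := by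
    have hc1 : Continuous (fun t : ℝ => c + t • (x - c)) := by fun_prop
    have hc2 : Continuous (fun t : ℝ => cx (c + t • (x - c))) := continuous_cx.comp hc1
    have e1 : ∀ᶠ t : ℝ in 𝓝 0, f (c + t • (x - c)) = 0 := by
      have ht : Tendsto (fun t : ℝ => c + t • (x - c)) (𝓝 0) (𝓝 c) := by
        have := hc1.tendsto (0 : ℝ)
        simpa using this
      exact ht.eventually h0
    have e2 : ∀ᶠ t : ℝ in 𝓝 0, cx (c + t • (x - c)) ∈ ball (cx p) ρ := by
      have ht : Tendsto (fun t : ℝ => cx (c + t • (x - c))) (𝓝 0) (𝓝 (cx c)) := by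
        have := hc2.tendsto (0 : ℝ)
        simpa using this
      exact ht.eventually (isOpen_ball.mem_nhds hc)
    filter_upwards [e1, e2] with t ht1 ht2
    rw [hreal, hFx _ ht2, ht1]
    simp
  have hfreq : ∃ᶠ z in 𝓝[≠] (0 : ℂ), (fun t => F (g t)) z = 0 := by
    have h1 : Tendsto (fun t : ℝ => (t : ℂ)) (𝓝[≠] 0) (𝓝[≠] 0) := by
      apply tendsto_nhdsWithin_of_tendsto_nhds_of_eventually_within
      · have : Tendsto (fun t : ℝ => (t : ℂ)) (𝓝 0) (𝓝 ((0 : ℝ) : ℂ)) :=
          Complex.continuous_ofReal.continuousAt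
        simpa using this.mono_left nhdsWithin_le_nhds
      · filter_upwards [self_mem_nhdsWithin] with t ht
        simpa using ht
    have h2 : ∃ᶠ t : ℝ in 𝓝[≠] 0, F (g (t : ℂ)) = 0 :=
      (hsmall.filter_mono nhdsWithin_le_nhds).frequently
    exact h1.frequently h2
  have hz := han.eqOn_zero_of_preconnected_of_frequently_eq_zero hTc.isPreconnected h0T hfreq
  have h1 := hz h1T
  have h2 : g 1 = cx x := by
    simp [hg]
  have h3 : F (cx x) = 0 := by
    rw [← h2]
    exact h1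
  rw [hFx x hx] at h3
  exact_mod_cast h3

theorem idt : T_IDT := by
  intro O W f hO hOc hfc hHX hW hWn hWO hW0
  set Z : Set E := {x | x ∈ O ∧ ∀ᶠ y in 𝓝 x, f y = 0} with hZ
  have hZo : IsOpen Z := by
    have : Z = O ∩ {x | ∀ᶠ y in 𝓝 x, f y = 0} := rfl
    rw [this]
    exact hO.inter isOpen_setOfPred_eventually_nhds
  have hWZ : W ⊆ Z := fun x hx =>
    ⟨hWO hx, by filter_upwards [hW.mem_nhds hx] with y hy using hW0 y hy⟩
  have hcl : ∀ x ∈ O, x ∈ closure Z → x ∈ Z := by
    intro p hp hpc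
    obtain ⟨ρ, hρ, F, hF, hFx⟩ := hHX p hp
    have hN : cx ⁻¹' ball (cx p) ρ ∈ 𝓝 p :=
      continuous_cx.continuousAt.preimage_mem_nhds (ball_mem_nhds _ hρ)
    obtain ⟨c, hc1, hc2⟩ := mem_closure_iff_nhds.1 hpc _ hN
    refine ⟨hp, ?_⟩
    filter_upwards [hN] with y hy
    exact vanish hF hFx hc1 hy hc2.2
  have hsub : O ⊆ Z := by
    apply hOc.subset_of_closure_inter_subset hZo
    · obtain ⟨x, hx⟩ := hWn
      exact ⟨x, hWO hx, hWZ hx⟩
    · rintro x ⟨h1, h2⟩
      exact hcl x h2 h1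
  intro x hx
  exact (hsub hx).2.self_of_nhds

end Pool.Agent.H73.IC
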