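import Pool.Agent.H94.IC.Targets3
import Pool.Agent.H29.IC.Tools

/-!
# MP_0ee698_an, module PRO: the explicit profiles
-/

open MeasureTheory Set Filter Topology Metric
open scoped ENNReal NNReal ContDiff RealInnerProductSpace

namespace Pool.Agent.H73.IC

open Pool.Agent.H94.IC Pool.Agent.H29.IC

theorem dv_congr {X Y : E → E} {x : E} (h : X =ᶠ[𝓝 x] Y) : dv X x = dv Y x := by
  unfold dv
  rw [h.fderiv_eq]

theorem dv_id (x : E) : dv (fun y => y) x = 3 := by
  unfold dv
  simp

theorem dv_const (v : E) (x : E) : dv (fun _ => v) x = 0 := by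
  unfold dv
  simp

/-- the surface measure lives on the boundary -/
theorem ae_frontier {Ω : Set E} {σ : Measure E} {ν : E → E} (h : IsSurf Ω σ ν) :
    ∀ᵐ x ∂σ, x ∈ frontier Ω := by
  rw [ae_iff]
  exact h.supp

theorem frontier_bdd {Ω : Set E} (hb : Bornology.IsBounded Ω) : ∃ R : ℝ, 0 < R ∧ closure Ω ⊆ ball 0 R := by
  obtain ⟨R, hR⟩ := hb.closure.exists_norm_le
  refine ⟨max R 0 + 1, by positivity, fun x hx => ?_⟩
  rw [mem_ball_zero_iff]
  have := hR x hx
  have h2 := le_max_left R 0
  linarith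

/-- the Gauss Green formula for smooth fields without support condition -/
theorem gauss_green {Ω : Set E} {σ : Measure E} {ν : E → E} (hb : Bornology.IsBounded Ω)
    (hΩ : MeasurableSet Ω) (h : IsSurf Ω σ ν) {X : E → E} (hX : ContDiff ℝ 1 X) :
    ∫ x in Ω, dv X x = ∫ x, ⟪X x, ν x⟫ ∂σ := by
  obtain ⟨R, hR, hsub⟩ := frontier_bdd hb
  let χ : ContDiffBump (0 : E) := ⟨R, R + 1, hR, by linarith⟩
  have hev : ∀ x ∈ closure Ω, (fun y => χ y • X y) =ᶠ[𝓝 x] X := by
    intro x hx
    filter_upwards [isOpen_ball.mem_nhds (hsub hx)] with y hy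
    have : χ y = 1 := χ.one_of_mem_closedBall (ball_subset_closedBall hy)
    rw [this, one_smul]
  have hcs : HasCompactSupport fun y => χ y • X y := χ.hasCompactSupport.smul_right
  have key := h.gg (fun y => χ y • X y) (χ.contDiff.smul hX) hcs
  have e1 : ∫ x in Ω, dv (fun y => χ y • X y) x = ∫ x in Ω, dv X x := by
    apply setIntegral_congr_fun hΩ
    intro x hx
    exact dv_congr (hev x (subset_closure hx))
  have e2 : ∫ x, ⟪χ x • X x, ν x⟫ ∂σ = ∫ x, ⟪X x, ν x⟫ ∂σ := by
    apply integral_congr_ae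
    filter_upwards [ae_frontier h] with x hx
    have := (hev x (frontier_subset_closure hx)).self_of_nhds
    simp only at this
    rw [this]
  rw [← e1, ← e2]
  exact key

theorem memLp_pos {Ω : Set E} {σ : Measure E} {ν : E → E} (hb : Bornology.IsBounded Ω)
    (h : IsSurf Ω σ ν) : MemLp (fun x => ⟪x, ν x⟫) ∞ σ := by
  obtain ⟨R, hR, hsub⟩ := frontier_bdd hb
  have hm : AEStronglyMeasurable (fun x : E => ⟪x, ν x⟫) σ :=
    continuous_id.aestronglyMeasurable.inner h.meas
  refine memLp_top_of_bound hm R ?_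
  filter_upwards [ae_frontier h, h.unit] with x hx hu
  have h1 : ‖x‖ ≤ R := by
    have := hsub (frontier_subset_closure hx)
    rw [mem_ball_zero_iff] at this
    exact this.le
  calc ‖⟪x, ν x⟫‖ ≤ ‖x‖ * ‖ν x‖ := norm_inner_le_norm _ _
    _ ≤ R := by rw [hu, mul_one]; exact h1

theorem pro : T_PRO := by
  intro Ω σ ν hΩ h
  have hfin := h.fin
  have hm := hΩ.op.measurableSet
  have g1 : 3 * (volume Ω).toReal = ∫ x, ⟪x, ν x⟫ ∂σ := by
    have g := gauss_green hΩ.bdd hm h contDiff_id
    have : ∀ x : E, dv id x = 3 := dv_id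
    simp only [this, id] at g
    rw [← g]
    rw [setIntegral_const, smul_eq_mul, mul_comm]
    rfl
  have hV : 0 < (volume Ω).toReal := by
    apply ENNReal.toReal_pos
    · exact (hΩ.op.measure_pos volume hΩ.conn.nonempty).ne'
    · exact hΩ.bdd.measure_lt_top.ne
  have hS : 0 < (σ univ).toReal := by
    apply ENNReal.toReal_pos
    · intro h0
      have : σ = 0 := Measure.measure_univ_eq_zero.1 h0
      rw [this, integral_zero_measure] at g1
      linarith
    · exact measure_ne_top _ _
  refine ⟨hS, ⟨?_, ?_⟩, fun k => ⟨?_, ?_⟩⟩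
  · have h1 : MemLp (fun x => ⟪x, ν x⟫) 2 σ := (memLp_pos hΩ.bdd h).mono_exponent le_top
    exact h1.sub (memLp_const _)
  · have h1 : Integrable (fun x => ⟪x, ν x⟫) σ :=
      (memLp_one_iff_integrable.1 ((memLp_pos hΩ.bdd h).mono_exponent le_top))
    unfold psi0
    rw [integral_sub h1 (integrable_const _), integral_const, ← g1, smul_eq_mul]
    change 3 * (volume Ω).toReal - (σ univ).toReal * (3 * (volume Ω).toReal / (σ univ).toReal) = 0
    field_simp
    ring
  · have hmk : AEStronglyMeasurable (fun x => ν x k) σ :=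
      (PiLp.continuous_apply 2 (fun _ : Fin 3 => ℝ) k).comp_aestronglyMeasurable h.meas
    refine MemLp.of_bound hmk 1 ?_
    filter_upwards [h.unit] with x hu
    calc ‖ν x k‖ ≤ ‖ν x‖ := PiLp.norm_apply_le _ _
      _ ≤ 1 := hu.le
  · have := gauss_green hΩ.bdd hm h (contDiff_const (c := ev k))
    simp only [dv_const, integral_zero] at this
    rw [this]
    congr 1
    funext x
    rw [EuclideanSpace.inner_single_left]
    simp

end Pool.Agent.H73.IC
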