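import Pool.Agent.H94.IC.Targets1

/-!
# MP_0ee698_an, module DCH: dichotomy at graph points
-/

open MeasureTheory Set Filter Topology Metric
open scoped ENNReal NNReal ContDiff RealInnerProductSpace

namespace Pool.Agent.H73.IC

open Pool.Agent.H94.IC

theorem isOpen_Bx (T : E ≃ₗᵢ[ℝ] E) (p : E) (r h : ℝ) : IsOpen (Bx T p r h) := by
  have e : Bx T p r h = {x | |(T (x - p)) 0| < r} ∩ ({x | |(T (x - p)) 1| < r} ∩
      {x | |(T (x - p)) 2| < h}) := rfl
  have hc : ∀ k : Fin 3, Continuous fun x : E => |(T (x - p)) k| := by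
    intro k
    have h1 : Continuous fun x : E => T (x - p) := T.continuous.comp (by fun_prop)
    fun_prop
  rw [e]
  exact (isOpen_lt (hc 0) continuous_const).inter ((isOpen_lt (hc 1) continuous_const).inter
    (isOpen_lt (hc 2) continuous_const))

theorem T_pt (T : E ≃ₗᵢ[ℝ] E) (p : E) (a : ℝ × ℝ) (t : ℝ) : T (pt T p a t - p) = !₂[a.1, a.2, t] := by
  simp [pt]

theorem pt_coord0 (T : E ≃ₗᵢ[ℝ] E) (p : E) (a : ℝ × ℝ) (t : ℝ) : (T (pt T p a t - p)) 0 = a.1 := by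
  rw [T_pt]; rfl

theorem pt_coord1 (T : E ≃ₗᵢ[ℝ] E) (p : E) (a : ℝ × ℝ) (t : ℝ) : (T (pt T p a t - p)) 1 = a.2 := by
  rw [T_pt]; rfl

theorem pt_coord2 (T : E ≃ₗᵢ[ℝ] E) (p : E) (a : ℝ × ℝ) (t : ℝ) : (T (pt T p a t - p)) 2 = t := by
  rw [T_pt]; rfl

theorem pt_self (T : E ≃ₗᵢ[ℝ] E) (p x : E) :
    pt T p ((T (x - p)) 0, (T (x - p)) 1) ((T (x - p)) 2) = x := by
  have h : (!₂[(T (x - p)) 0, (T (x - p)) 1, (T (x - p)) 2] : E) = T (x - p) := by
    ext i
    fin_cases i <;> rfl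
  unfold pt
  rw [h]
  simp

theorem pt_mem_Bx (T : E ≃ₗᵢ[ℝ] E) (p : E) (a : ℝ × ℝ) (t r h : ℝ) :
    pt T p a t ∈ Bx T p r h ↔ |a.1| < r ∧ |a.2| < r ∧ |t| < h := by
  unfold Bx
  rw [mem_ofPred_eq, pt_coord0, pt_coord1, pt_coord2]

theorem continuous_pt (T : E ≃ₗᵢ[ℝ] E) (p : E) :
    Continuous fun b : (ℝ × ℝ) × ℝ => pt T p b.1 b.2 := by
  unfold pt
  refine continuous_const.add (T.symm.continuous.comp ?_)
  fun_prop

theorem pt_zero (T : E ≃ₗᵢ[ℝ] E) (p : E) : pt T p (0, 0) 0 = p := by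
  have h := pt_self T p p
  simpa using h

theorem norm_le_coords (y : E) : ‖y‖ ≤ |y 0| + |y 1| + |y 2| := by
  have h1 := EuclideanSpace.norm_sq_eq y
  rw [Fin.sum_univ_three] at h1
  simp only [Real.norm_eq_abs] at h1
  have h0 := abs_nonneg (y 0)
  have h2 := abs_nonneg (y 1)
  have h3 := abs_nonneg (y 2)
  apply le_of_sq_le_sq _ (by positivity)
  nlinarith [mul_nonneg h0 h2, mul_nonneg h0 h3, mul_nonneg h2 h3]

/-- shrinking of graph boxes -/
theorem shrink {Y W : Set E} {p : E} {T : E ≃ₗᵢ[ℝ] E} {r h : ℝ} {g : ℝ × ℝ → ℝ}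
    (hG : GrBox Y p T r h g) (hW : W ∈ 𝓝 p) :
    ∃ r' h' : ℝ, r' ≤ r ∧ h' ≤ h ∧ GrBox Y p T r' h' g ∧ Bx T p r' h' ⊆ W := by
  obtain ⟨δ, hδ, hball⟩ := Metric.mem_nhds_iff.1 hW
  set h' := min h (δ / 3) with hh'
  have hh0 : 0 < h' := lt_min hG.hpos (by positivity)
  have hO : IsOpen {a : ℝ × ℝ | |a.1| < r ∧ |a.2| < r} := by
    have c1 : IsOpen {a : ℝ × ℝ | |a.1| < r} := isOpen_lt (by fun_prop) continuous_const
    have c2 : IsOpen {a : ℝ × ℝ | |a.2| < r} := isOpen_lt (by fun_prop) continuous_const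
    exact c1.inter c2
  have h0 : ((0, 0) : ℝ × ℝ) ∈ {a : ℝ × ℝ | |a.1| < r ∧ |a.2| < r} := by
    simp [hG.rpos]
  have hc : ContinuousAt g (0, 0) := hG.cont.continuousAt (hO.mem_nhds h0)
  have hev : ∀ᶠ a in 𝓝 ((0, 0) : ℝ × ℝ), |g a| < h' := by
    have h1 : |g (0, 0)| < h' := by rw [hG.zero, abs_zero]; exact hh0
    exact hc.abs.eventually (gt_mem_nhds h1)
  obtain ⟨ε, hε, hεb⟩ := Metric.eventually_nhds_iff.1 hev
  set r' := min r (min ε (δ / 3)) with hr'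
  have hr0 : 0 < r' := lt_min hG.rpos (lt_min hε (by positivity))
  have hr1 : r' ≤ r := min_le_left _ _
  have hr2 : r' ≤ ε := (min_le_right _ _).trans (min_le_left _ _)
  have hr3 : r' ≤ δ / 3 := (min_le_right _ _).trans (min_le_right _ _)
  have hh1 : h' ≤ h := min_le_left _ _
  have hh2 : h' ≤ δ / 3 := min_le_right _ _
  refine ⟨r', h', hr1, hh1, ⟨hr0, hh0, hG.cont.mono ?_, hG.zero, ?_, ?_⟩, ?_⟩
  · rintro a ⟨h1, h2⟩
    exact ⟨h1.trans_le hr1, h2.trans_le hr1⟩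
  · intro a h1 h2
    apply hεb
    rw [Prod.dist_eq, max_lt_iff, Real.dist_eq, Real.dist_eq, sub_zero, sub_zero]
    exact ⟨h1.trans_le hr2, h2.trans_le hr2⟩
  · rintro x ⟨h1, h2, h3⟩
    exact hG.eq x ⟨h1.trans_le hr1, h2.trans_le hr1, h3.trans_le hh1⟩
  · rintro x ⟨h1, h2, h3⟩
    apply hball
    rw [mem_ball, dist_eq_norm, ← T.norm_map]
    have := norm_le_coords (T (x - p))
    linarith

/-- a sign function is constant above and below the graph -/
theorem sides {Y : Set E} {s : E → ℤˣ} {p : E} {T : E ≃ₗᵢ[ℝ] E} {r h : ℝ} {g : ℝ × ℝ → ℝ}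
    (hG : GrBox Y p T r h g) (hs : LC Y (Bx T p r h) s) :
    ∃ c1 c2 : ℤˣ, ∀ x ∈ Bx T p r h, (g ((T (x - p)) 0, (T (x - p)) 1) < (T (x - p)) 2 → s x = c1) ∧
    ((T (x - p)) 2 < g ((T (x - p)) 0, (T (x - p)) 1) → s x = c2) := by
  have hcont : ∀ x ∈ Bx T p r h, x ∉ Y → ContinuousAt s x := fun x hx hY =>
    (continuousAt_const (y := s x)).congr ((hs x ⟨hx, hY⟩).mono fun _ h => h.symm)
  set Q : Set ((ℝ × ℝ) × ℝ) := {a : ℝ × ℝ | |a.1| < r ∧ |a.2| < r} ×ˢ Ioo (0 : ℝ) 1 with hQ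
  have hQc : IsPreconnected Q := by
    have hconv : Convex ℝ Q := by
      apply Convex.prod _ (convex_Ioo 0 1)
      have : {a : ℝ × ℝ | |a.1| < r ∧ |a.2| < r} = Ioo (-r) r ×ˢ Ioo (-r) r := by
        ext a
        simp [abs_lt]
      rw [this]
      exact (convex_Ioo _ _).prod (convex_Ioo _ _)
    exact hconv.isPreconnected
  have hgQ : ContinuousOn (fun b : (ℝ × ℝ) × ℝ => g b.1) Q :=
    hG.cont.comp (by fun_prop) fun b hb => hb.1
  have hconst : ∀ f : (ℝ × ℝ) × ℝ → ℝ, ContinuousOn f Q →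
      (∀ b ∈ Q, |f b| < h) → (∀ b ∈ Q, f b ≠ g b.1) → ∀ b ∈ Q, ∀ b' ∈ Q,
        s (pt T p b.1 (f b)) = s (pt T p b'.1 (f b')) := by
    intro f hf hfh hfg b hb b' hb'
    have hc : ContinuousOn (fun b : (ℝ × ℝ) × ℝ => s (pt T p b.1 (f b))) Q := by
      intro b hb
      have hmem : pt T p b.1 (f b) ∈ Bx T p r h :=
        (pt_mem_Bx _ _ _ _ _ _).2 ⟨hb.1.1, hb.1.2, hfh b hb⟩
      have hY : pt T p b.1 (f b) ∉ Y := by
        intro hY
        have := (hG.eq _ hmem).1 hY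
        rw [pt_coord0, pt_coord1, pt_coord2] at this
        exact hfg b hb this
      have h1 : ContinuousWithinAt (fun b : (ℝ × ℝ) × ℝ => pt T p b.1 (f b)) Q b := by
        have h2 : ContinuousWithinAt (fun b : (ℝ × ℝ) × ℝ => (b.1, f b)) Q b :=
          (by fun_prop : ContinuousWithinAt (fun b : (ℝ × ℝ) × ℝ => b.1) Q b).prodMk (hf b hb)
        exact ContinuousAt.comp_continuousWithinAt (f := fun b : (ℝ × ℝ) × ℝ => (b.1, f b))
          (g := fun b : (ℝ × ℝ) × ℝ => pt T p b.1 b.2) (continuous_pt T p).continuousAt h2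
      exact ContinuousAt.comp_continuousWithinAt (f := fun b : (ℝ × ℝ) × ℝ => pt T p b.1 (f b))
        (g := s) (hcont _ hmem hY) h1
    exact hQc.constant hc hb hb'
  have hb0 : (((0, 0), 1 / 2) : (ℝ × ℝ) × ℝ) ∈ Q := by
    refine ⟨⟨?_, ?_⟩, ?_, ?_⟩
    · simpa using hG.rpos
    · simpa using hG.rpos
    · norm_num
    · norm_num
  set f1 : (ℝ × ℝ) × ℝ → ℝ := fun b => g b.1 + b.2 * (h - g b.1) with hf1
  set f2 : (ℝ × ℝ) × ℝ → ℝ := fun b => g b.1 - b.2 * (h + g b.1) with hf2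
  have hgb : ∀ b ∈ Q, -h < g b.1 ∧ g b.1 < h := fun b hb => abs_lt.1 (hG.bd b.1 hb.1.1 hb.1.2)
  have hs2 : ContinuousOn (fun b : (ℝ × ℝ) × ℝ => b.2) Q := continuous_snd.continuousOn
  have k1 := hconst f1 (hgQ.add (hs2.mul (continuousOn_const.sub hgQ))) (by
    intro b hb
    obtain ⟨h1, h2⟩ := hgb b hb
    obtain ⟨-, h3, h4⟩ := hb
    rw [abs_lt]
    constructor
    · rw [hf1]; nlinarith
    · rw [hf1]; nlinarith) (by
    intro b hb
    obtain ⟨h1, h2⟩ := hgb b hb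
    obtain ⟨-, h3, h4⟩ := hb
    rw [hf1]
    simp only
    nlinarith [mul_pos h3 (sub_pos.2 h2)])
  have k2 := hconst f2 (hgQ.sub (hs2.mul (continuousOn_const.add hgQ))) (by
    intro b hb
    obtain ⟨h1, h2⟩ := hgb b hb
    obtain ⟨-, h3, h4⟩ := hb
    rw [abs_lt]
    constructor
    · rw [hf2]; nlinarith
    · rw [hf2]; nlinarith) (by
    intro b hb
    obtain ⟨h1, h2⟩ := hgb b hb
    obtain ⟨-, h3, h4⟩ := hb
    rw [hf2]
    simp only
    nlinarith [mul_pos h3 (by linarith : 0 < h + g b.1)])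
  refine ⟨s (pt T p (0, 0) (f1 ((0, 0), 1 / 2))), s (pt T p (0, 0) (f2 ((0, 0), 1 / 2))), ?_⟩
  rintro x ⟨hx0, hx1, hx2⟩
  set a : ℝ × ℝ := ((T (x - p)) 0, (T (x - p)) 1) with ha
  set t : ℝ := (T (x - p)) 2 with ht
  have hga := abs_lt.1 (hG.bd a hx0 hx1)
  have ht2 := abs_lt.1 hx2
  constructor
  · intro hlt
    have hden : 0 < h - g a := by linarith
    have hb : ((a, (t - g a) / (h - g a)) : (ℝ × ℝ) × ℝ) ∈ Q := by
      refine ⟨⟨hx0, hx1⟩, ?_, ?_⟩
      · exact div_pos (by linarith) hden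
      · rw [div_lt_one hden]
        linarith [ht2.2]
    have := k1 _ hb _ hb0
    rw [← this]
    have e : f1 (a, (t - g a) / (h - g a)) = t := by
      rw [hf1]
      simp only
      field_simp
      ring
    rw [e]
    congr 1
    exact (pt_self T p x).symm
  · intro hlt
    have hden : 0 < h + g a := by linarith
    have hb : ((a, (g a - t) / (h + g a)) : (ℝ × ℝ) × ℝ) ∈ Q := by
      refine ⟨⟨hx0, hx1⟩, ?_, ?_⟩
      · exact div_pos (by linarith) hden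
      · rw [div_lt_one hden]
        linarith [ht2.1]
    have := k2 _ hb _ hb0
    rw [← this]
    have e : f2 (a, (g a - t) / (h + g a)) = t := by
      rw [hf2]
      simp only
      field_simp
      ring
    rw [e]
    congr 1
    exact (pt_self T p x).symm

theorem dch : T_DCH := by
  intro Y W s p hW hpW hLC hGr
  constructor
  · obtain ⟨T, r, h, g, hG⟩ := hGr
    obtain ⟨r', h', -, -, hG', hsub⟩ := shrink hG (hW.mem_nhds hpW)
    obtain ⟨c1, c2, hc⟩ := sides hG' (s := s) (fun x hx => hLC x ⟨hsub hx.1, hx.2⟩)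
    have hunit : c2 = c1 ∨ c2 = - c1 := by
      rcases Int.units_eq_one_or c1 with rfl | rfl <;> rcases Int.units_eq_one_or c2 with rfl | rfl <;>
        simp
    rcases hunit with rfl | rfl
    · right
      refine ⟨T, r', h', g, hG', c2, fun x hx hY => ?_⟩
      have hne : (T (x - p)) 2 ≠ g ((T (x - p)) 0, (T (x - p)) 1) := fun h => hY ((hG'.eq x hx).2 h)
      rcases lt_or_gt_of_ne hne with hlt | hlt
      · exact (hc x hx).2 hlt
      · exact (hc x hx).1 hlt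
    · left
      exact ⟨T, r', h', g, hG', c1, hc⟩
  · rintro ⟨⟨T1, r1, h1, g1, hG1, c, hc⟩, ⟨T2, r2, h2, g2, hG2, c', hc'⟩⟩
    have hN : Bx T1 p r1 h1 ∩ Bx T2 p r2 h2 ∈ 𝓝 p := by
      apply ((isOpen_Bx _ _ _ _).inter (isOpen_Bx _ _ _ _)).mem_nhds
      constructor
      · exact ⟨by simpa using hG1.rpos, by simpa using hG1.rpos, by simpa using hG1.hpos⟩
      · exact ⟨by simpa using hG2.rpos, by simpa using hG2.rpos, by simpa using hG2.hpos⟩
    have hT : Tendsto (fun t : ℝ => pt T1 p (0, 0) t) (𝓝 0) (𝓝 p) := by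
      have h3 : Continuous fun t : ℝ => pt T1 p (0, 0) t :=
        (continuous_pt T1 p).comp (by fun_prop : Continuous fun t : ℝ => (((0 : ℝ), (0 : ℝ)), t))
      have h4 := h3.tendsto 0
      rwa [pt_zero] at h4
    obtain ⟨ε, hε, hεb⟩ := Metric.eventually_nhds_iff.1 (hT.eventually hN)
    have hp := hεb (y := ε / 2) (by rw [Real.dist_eq, sub_zero, abs_of_pos (by positivity)]; linarith)
    have hm := hεb (y := -(ε / 2)) (by
      rw [Real.dist_eq, sub_zero, abs_neg, abs_of_pos (by positivity)]; linarith)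
    have key : ∀ t : ℝ, t ≠ 0 → pt T1 p (0, 0) t ∈ Bx T1 p r1 h1 → pt T1 p (0, 0) t ∉ Y := by
      intro t ht hmem hY
      have := (hG1.eq _ hmem).1 hY
      rw [pt_coord0, pt_coord1, pt_coord2, hG1.zero] at this
      exact ht this
    have e1 : s (pt T1 p (0, 0) (ε / 2)) = c := by
      apply (hc _ hp.1).1
      rw [pt_coord0, pt_coord1, pt_coord2, hG1.zero]
      positivity
    have e2 : s (pt T1 p (0, 0) (-(ε / 2))) = -c := by
      apply (hc _ hm.1).2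
      rw [pt_coord0, pt_coord1, pt_coord2, hG1.zero]
      linarith
    have e3 : s (pt T1 p (0, 0) (ε / 2)) = c' := hc' _ hp.2 (key _ (by positivity) hp.1)
    have e4 : s (pt T1 p (0, 0) (-(ε / 2))) = c' :=
      hc' _ hm.2 (key _ (by linarith) hm.1)
    have e5 : c = -c := by
      rw [← e2, e4, ← e3, e1]
    rcases Int.units_eq_one_or c with rfl | rfl
    · revert e5; decide
    · revert e5; decide

end Pool.Agent.H73.IC
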