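import Pool.Agent.H94.IC.Targets3

/-!
# MP_0ee698_an, module DET
-/

open MeasureTheory Set Filter Topology Metric Matrix
open scoped ENNReal NNReal ContDiff RealInnerProductSpace MatrixOrder

namespace Pool.Agent.H73.IC

open Pool.Agent.H94.IC

/-- simultaneous diagonalisation -/
theorem simdiag {p : ℕ} {M0 M1 : Matrix (Fin p) (Fin p) ℝ} (h0 : M0.PosSemidef)
    (h1 : M1.PosSemidef) (hd : M0.det ≠ 0) :
    ∃ (P : Matrix (Fin p) (Fin p) ℝ) (μ : Fin p → ℝ), (∀ i, 0 ≤ μ i) ∧
      Pᵀ * M0 * P = 1 ∧ Pᵀ * M1 * P = diagonal μ := by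
  obtain ⟨B, hB⟩ := CStarAlgebra.nonneg_iff_eq_star_mul_self.mp h0.nonneg
  have hBt : M0 = Bᵀ * B := by
    rw [hB, star_eq_conjTranspose, conjTranspose_eq_transpose_of_trivial]
  have hBd : B.det ≠ 0 := by
    intro h
    apply hd
    rw [hBt, det_mul, h, mul_zero]
  have hBu : IsUnit B.det := isUnit_iff_ne_zero.2 hBd
  set N : Matrix (Fin p) (Fin p) ℝ := (B⁻¹)ᵀ * M1 * B⁻¹ with hN
  have hNp : N.PosSemidef := by
    have := h1.conjTranspose_mul_mul_same B⁻¹
    rwa [conjTranspose_eq_transpose_of_trivial] at this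
  set U : Matrix (Fin p) (Fin p) ℝ := (hNp.1.eigenvectorUnitary : Matrix (Fin p) (Fin p) ℝ) with hU
  have hUU : Uᵀ * U = 1 := by
    have := Unitary.coe_star_mul_self hNp.1.eigenvectorUnitary
    rwa [star_eq_conjTranspose, conjTranspose_eq_transpose_of_trivial] at this
  have hUN : Uᵀ * N * U = diagonal hNp.1.eigenvalues := by
    have := hNp.1.conjStarAlgAut_star_eigenvectorUnitary
    rw [Unitary.conjStarAlgAut_star_apply, star_eq_conjTranspose,
      conjTranspose_eq_transpose_of_trivial] at this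
    simpa using this
  refine ⟨B⁻¹ * U, hNp.1.eigenvalues, fun i => hNp.eigenvalues_nonneg i, ?_, ?_⟩
  · have : (B⁻¹ * U)ᵀ * M0 * (B⁻¹ * U) = Uᵀ * ((B * B⁻¹)ᵀ * (B * B⁻¹)) * U := by
      rw [hBt]
      simp only [transpose_mul, Matrix.mul_assoc]
    rw [this, mul_nonsing_inv _ hBu, transpose_one, Matrix.mul_one, Matrix.mul_one, hUU]
  · rw [← hUN, hN]
    simp only [transpose_mul, Matrix.mul_assoc]

theorem quad {p : ℕ} {M P : Matrix (Fin p) (Fin p) ℝ} {μ : Fin p → ℝ}
    (h : Pᵀ * M * P = diagonal μ) (c : Fin p → ℝ) :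
    (P *ᵥ c) ⬝ᵥ M *ᵥ (P *ᵥ c) = ∑ i, μ i * c i ^ 2 := by
  have h1 : (P *ᵥ c) ⬝ᵥ M *ᵥ (P *ᵥ c) = c ⬝ᵥ (Pᵀ * M * P) *ᵥ c := by
    rw [dotProduct_comm, ← mulVec_mulVec, ← mulVec_mulVec, dotProduct_mulVec c Pᵀ,
      vecMul_transpose, dotProduct_comm]
  rw [h1, h]
  simp only [dotProduct, mulVec_diagonal]
  refine Finset.sum_congr rfl fun i _ => ?_
  ring

theorem det : T_DET := by
  intro p m M0 M1 A η hη hη1 h0 h1 hle hker
  by_cases hd : M0.det = 0
  · -- singular case
    obtain ⟨x, hx, hx0⟩ := Matrix.exists_mulVec_eq_zero_iff.2 hd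
    have h2 : x ⬝ᵥ M1 *ᵥ x ≤ 0 := by
      refine (hle x).trans ?_
      rw [hx0, dotProduct_zero]
    have h3 : M1 *ᵥ x = 0 := by
      have h4 : 0 ≤ x ⬝ᵥ M1 *ᵥ x := by
        simpa using h1.dotProduct_mulVec_nonneg x
      have h5 := (h1.dotProduct_mulVec_zero_iff x).1
      apply h5
      simpa using le_antisymm h2 h4
    have h4 : M1.det = 0 := Matrix.exists_mulVec_eq_zero_iff.1 ⟨x, hx, h3⟩
    rw [h4, hd, mul_zero]
  obtain ⟨P, μ, hμ, hP0, hP1⟩ := simdiag h0 h1 hd
  have hP0' : Pᵀ * M0 * P = Matrix.diagonal (fun _ => (1 : ℝ)) := by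
    rw [hP0]; exact Matrix.diagonal_one.symm
  have q0 : ∀ c : Fin p → ℝ, (P *ᵥ c) ⬝ᵥ M0 *ᵥ (P *ᵥ c) = ∑ i, c i ^ 2 := by
    intro c
    rw [quad hP0' c]
    simp
  have q1 := quad hP1
  -- the eigenvalues are at most one
  have hμ1 : ∀ i, μ i ≤ 1 := by
    intro i
    have := hle (P *ᵥ (Pi.single i 1))
    rw [q0, q1] at this
    simpa [Pi.single_apply] using this
  -- few eigenvalues exceed `η ^ 2`
  set S : Finset (Fin p) := Finset.univ.filter (fun i => η ^ 2 < μ i) with hS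
  have hcard : S.card ≤ m := by
    by_contra hcon
    push Not at hcon
    let ext : (S → ℝ) →ₗ[ℝ] (Fin p → ℝ) :=
      { toFun := fun c i => if h : i ∈ S then c ⟨i, h⟩ else 0
        map_add' := by
          intro c d
          funext i
          by_cases h : i ∈ S <;> simp [h]
        map_smul' := by
          intro r c
          funext i
          by_cases h : i ∈ S <;> simp [h] }
    let L : (S → ℝ) →ₗ[ℝ] (Fin m → ℝ) := (A.mulVecLin ∘ₗ P.mulVecLin) ∘ₗ ext
    have hk : LinearMap.ker L ≠ ⊥ := by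
      apply LinearMap.ker_ne_bot_of_finrank_lt
      simpa using hcon
    obtain ⟨c, hc, hc0⟩ := Submodule.exists_mem_ne_zero_of_ne_bot hk
    have hLc : A *ᵥ (P *ᵥ (ext c)) = 0 := by
      simpa [L] using hc
    have hq := hker _ hLc
    rw [q0, q1, Finset.mul_sum] at hq
    have hlt : ∑ i, η ^ 2 * ext c i ^ 2 < ∑ i, μ i * ext c i ^ 2 := by
      apply Finset.sum_lt_sum
      · intro i _
        by_cases h : i ∈ S
        · have : η ^ 2 < μ i := (Finset.mem_filter.1 h).2
          exact mul_le_mul_of_nonneg_right this.le (sq_nonneg _)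
        · have : ext c i = 0 := by simp [ext, h]
          rw [this]
          simp
      · obtain ⟨j, hj⟩ := Function.ne_iff.1 hc0
        refine ⟨j, Finset.mem_univ _, ?_⟩
        have h1 : ext c j = c j := by simp [ext]
        have h2 : η ^ 2 < μ j := (Finset.mem_filter.1 j.2).2
        rw [h1]
        have h3 : 0 < c j ^ 2 := by
          have : c j ≠ 0 := hj
          positivity
        exact mul_lt_mul_of_pos_right h2 h3
    linarith
  -- the product
  have hprod : ∏ i, μ i ≤ η ^ (2 * (p - m)) := by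
    rw [← Finset.prod_filter_mul_prod_filter_not Finset.univ (fun i => η ^ 2 < μ i)]
    have e1 : ∏ i ∈ Finset.univ.filter (fun i => η ^ 2 < μ i), μ i ≤ 1 :=
      Finset.prod_le_one (fun i _ => hμ i) (fun i _ => hμ1 i)
    have e2 : ∏ i ∈ Finset.univ.filter (fun i => ¬ η ^ 2 < μ i), μ i ≤
        (η ^ 2) ^ (Finset.univ.filter (fun i => ¬ η ^ 2 < μ i)).card := by
      rw [← Finset.prod_const]
      refine Finset.prod_le_prod (fun i _ => hμ i) fun i hi => ?_
      exact not_lt.1 (Finset.mem_filter.1 hi).2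
    have e3 : (η ^ 2) ^ (Finset.univ.filter (fun i => ¬ η ^ 2 < μ i)).card ≤ (η ^ 2) ^ (p - m) := by
      apply pow_le_pow_of_le_one (by positivity) (pow_le_one₀ hη.le hη1)
      have := Finset.card_filter_add_card_filter_not (s := (Finset.univ : Finset (Fin p)))
        (fun i => η ^ 2 < μ i)
      rw [Finset.card_univ, Fintype.card_fin] at this
      have h2 : (Finset.univ.filter (fun i => η ^ 2 < μ i)).card ≤ m := hcard
      omega
    have e4 : 0 ≤ ∏ i ∈ Finset.univ.filter (fun i => ¬ η ^ 2 < μ i), μ i :=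
      Finset.prod_nonneg fun i _ => hμ i
    calc _ ≤ 1 * ∏ i ∈ Finset.univ.filter (fun i => ¬ η ^ 2 < μ i), μ i :=
          mul_le_mul_of_nonneg_right e1 e4
      _ = ∏ i ∈ Finset.univ.filter (fun i => ¬ η ^ 2 < μ i), μ i := one_mul _
      _ ≤ _ := e2.trans e3
      _ = η ^ (2 * (p - m)) := by rw [pow_mul]
  have hd0 : P.det * M0.det * P.det = 1 := by
    have := congrArg Matrix.det hP0
    rwa [det_mul, det_mul, det_transpose, det_one] at this
  have hd1 : P.det * M1.det * P.det = ∏ i, μ i := by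
    have := congrArg Matrix.det hP1
    rwa [det_mul, det_mul, det_transpose, det_diagonal] at this
  have hM0 : 0 ≤ M0.det := h0.det_nonneg
  have : M1.det = (∏ i, μ i) * M0.det := by
    rw [← hd1]
    linear_combination (-(M1.det)) * hd0
  rw [this]
  exact mul_le_mul_of_nonneg_right hprod hM0

end Pool.Agent.H73.IC
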