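import Pool.Agent.H73.IC.PRO
import Pool.Agent.H62.IC.FM1

/-!
# MP_0ee698_an, module FM3: the special profile
-/

open MeasureTheory Set Filter Topology Metric
open scoped ENNReal NNReal ContDiff RealInnerProductSpace

namespace Pool.Agent.H73.IC

open Pool.Agent.H94.IC Pool.Agent.H29.IC

/-- above a boundary point there are exterior points -/
theorem exterior_near {Ω : Set E} (hΩ : Dom Ω) {q : E} (hq : q ∈ frontier Ω) :
    ∃ᶠ x in 𝓝 q, x ∉ closure Ω := by
  obtain ⟨T, r, L, g, hr, hg, hΩg⟩ := hΩ.lip q hq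
  have hqΩ : q ∉ Ω := by
    rw [hΩ.op.frontier_eq] at hq
    exact hq.2
  have hq2 : g ((T q) 0, (T q) 1) ≤ (T q) 2 := by
    by_contra hcon
    exact hqΩ ((hΩg q (mem_ball_self hr)).2 (not_le.1 hcon))
  have hT : Continuous fun x : E => T x := T.continuous
  have hc : Continuous fun x : E => g ((T x) 0, (T x) 1) :=
    hg.continuous.comp (by fun_prop)
  have hO : IsOpen (ball q r ∩ {x : E | g ((T x) 0, (T x) 1) < (T x) 2}) :=
    isOpen_ball.inter (isOpen_lt hc (by fun_prop))
  have key : ∀ x ∈ ball q r ∩ {x : E | g ((T x) 0, (T x) 1) < (T x) 2}, x ∉ closure Ω := by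
    intro x hx hcl
    obtain ⟨y, hy1, hy2⟩ := mem_closure_iff.1 hcl _ hO hx
    have := (hΩg y hy1.1).1 hy2
    exact lt_asymm this hy1.2
  set γ : ℝ → E := fun τ => q + τ • T.symm (EuclideanSpace.single 2 1) with hγ
  have hγc : Tendsto γ (𝓝[>] 0) (𝓝 q) := by
    have h1 : Continuous γ := by fun_prop
    have h2 := h1.tendsto 0
    have h3 : γ 0 = q := by simp [hγ]
    rw [h3] at h2
    exact h2.mono_left nhdsWithin_le_nhds
  have hTγ : ∀ τ, T (γ τ) = T q + τ • (EuclideanSpace.single 2 1 : E) := by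
    intro τ
    simp [hγ]
  apply hγc.frequently
  apply Filter.Eventually.frequently
  filter_upwards [self_mem_nhdsWithin, hγc.eventually (isOpen_ball.mem_nhds (mem_ball_self hr))]
    with τ hτ hball
  apply key
  refine ⟨hball, ?_⟩
  change g ((T (γ τ)) 0, (T (γ τ)) 1) < (T (γ τ)) 2
  rw [hTγ]
  have e0 : (T q + τ • (EuclideanSpace.single 2 1 : E)) 0 = (T q) 0 := by simp
  have e1 : (T q + τ • (EuclideanSpace.single 2 1 : E)) 1 = (T q) 1 := by simp
  have e2 : (T q + τ • (EuclideanSpace.single 2 1 : E)) 2 = (T q) 2 + τ := by simp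
  rw [e0, e1, e2]
  have : (0 : ℝ) < τ := hτ
  linarith

theorem fm3 : T_FM3 := by
  classical
  intro Ω σ ν m D K hΩ hσ hm hD hDB hK hKΩ hclo hint
  have hfin := hσ.fin
  have hΩm := hΩ.op.measurableSet
  obtain ⟨χ, hχs, hχ01, ⟨U, hU, hKU, hU1⟩, hχc, hχΩ⟩ := H62.IC.exists_cutoff hK hΩ.op hKΩ
  set X : E → E := fun x => if x ∈ D then (1 - χ x) • x else 0 with hX
  have hK0 : ∀ x ∈ K, X =ᶠ[𝓝 x] fun _ => 0 := by
    intro x hx
    filter_upwards [hU.mem_nhds (hKU hx)] with z hz
    simp only [hX, hU1 z hz, sub_self, zero_smul, ite_self]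
  have hin : ∀ x ∈ D, X =ᶠ[𝓝 x] fun z => (1 - χ z) • z := by
    intro x hx
    filter_upwards [hD.mem_nhds hx] with z hz
    simp only [hX, if_pos hz]
  have hout : ∀ x, x ∉ K → x ∉ D → X =ᶠ[𝓝 x] fun _ => 0 := by
    intro x hx hxD
    have h1 : x ∉ closure D := fun h2 => hxD (hclo x h2 hx)
    filter_upwards [isClosed_closure.isOpen_compl.mem_nhds h1] with z hz
    have h2 : z ∉ D := fun h3 => hz (subset_closure h3)
    simp only [hX, if_neg h2]
  have hXs : ContDiff ℝ ∞ X := by
    rw [contDiff_iff_contDiffAt]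
    intro x
    by_cases hxK : x ∈ K
    · exact contDiffAt_const.congr_of_eventuallyEq (hK0 x hxK)
    · by_cases hxD : x ∈ D
      · have : ContDiff ℝ ∞ fun z : E => (1 - χ z) • z :=
          (contDiff_const.sub hχs).smul contDiff_id
        exact this.contDiffAt.congr_of_eventuallyEq (hin x hxD)
      · exact contDiffAt_const.congr_of_eventuallyEq (hout x hxK hxD)
  have hXs1 : ContDiff ℝ 1 X := hXs.of_le (by exact_mod_cast le_top)
  have hXc : HasCompactSupport X := by
    apply HasCompactSupport.intro (K := closure D) hDB.isCompact_closure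
    intro x hx
    have h2 : x ∉ D := fun h3 => hx (subset_closure h3)
    simp only [hX, if_neg h2]
  have g1 := hσ.gg X hXs1 hXc
  have g2 := integral_dv_eq_zero hXs1 hXc
  -- the surface integral
  have hR : ∫ x, ⟪X x, ν x⟫ ∂σ = ∫ x in D, ⟪x, ν x⟫ ∂σ := by
    rw [← integral_indicator hD.measurableSet]
    refine integral_congr_ae ?_
    filter_upwards [ae_frontier hσ] with x hx
    have hxΩ : x ∉ Ω := by
      rw [hΩ.op.frontier_eq] at hx
      exact hx.2
    have hχ0 : χ x = 0 := by
      by_contra h1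
      exact hxΩ (hχΩ (subset_tsupport _ h1))
    by_cases hxD : x ∈ D
    · rw [indicator_of_mem hxD]
      simp only [hX, if_pos hxD, hχ0, sub_zero, one_smul]
    · rw [indicator_of_notMem hxD]
      simp only [hX, if_neg hxD, inner_zero_left]
  -- the exterior integral
  have hdvi : Integrable (dv X) :=
    (continuous_dv hXs1).integrable_of_hasCompactSupport (hasCompactSupport_dv hXc)
  have hsplit : (∫ x in Ω, dv X x) + (∫ x in Ωᶜ, dv X x) = 0 := by
    rw [integral_add_compl hΩm hdvi, g2]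
  have hE : ∫ x in Ωᶜ, dv X x = 3 * (volume (D ∩ Ωᶜ)).toReal := by
    have h1 : ∫ x in Ωᶜ, dv X x = ∫ x in Ωᶜ, D.indicator (fun _ => (3 : ℝ)) x := by
      apply setIntegral_congr_fun hΩm.compl
      intro x hx
      have hxts : x ∉ tsupport χ := fun h => hx (hχΩ h)
      by_cases hxD : x ∈ D
      · rw [indicator_of_mem hxD]
        have h3 : X =ᶠ[𝓝 x] fun z => z := by
          filter_upwards [hD.mem_nhds hxD, notMem_tsupport_iff_eventuallyEq.1 hxts] with z hz1 hz2
          simp only [hX, if_pos hz1, hz2, Pi.zero_apply, sub_zero, one_smul]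
        rw [dv_congr h3, dv_id]
      · rw [indicator_of_notMem hxD]
        have hxK : x ∉ K := fun h => hx (hKΩ h)
        rw [dv_congr (hout x hxK hxD), dv_const]
    rw [h1, setIntegral_indicator hD.measurableSet, setIntegral_const, smul_eq_mul, inter_comm,
      mul_comm]
    rfl
  -- the hypothesis
  have hi1 : IntegrableOn (fun x => ⟪x, ν x⟫) D σ :=
    (memLp_one_iff_integrable.1 ((memLp_pos hΩ.bdd hσ).mono_exponent le_top)).integrableOn
  rw [integral_sub hi1 (integrable_const _), setIntegral_const, smul_eq_mul, ← hR, ← g1] at hint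
  have hvol : (volume (D ∩ Ωᶜ)).toReal = 0 := by
    have h1 : 0 ≤ σ.real D * m := mul_nonneg measureReal_nonneg hm
    have h2 : 0 ≤ (volume (D ∩ Ωᶜ)).toReal := ENNReal.toReal_nonneg
    linarith
  have hvol0 : volume (D ∩ Ωᶜ) = 0 := by
    rcases (ENNReal.toReal_eq_zero_iff _).1 hvol with h | h
    · exact h
    · exfalso
      have : volume (D ∩ Ωᶜ) < ⊤ := (hDB.subset inter_subset_left).measure_lt_top
      exact this.ne h
  have hDcl : D ⊆ closure Ω := by
    intro x hx
    by_contra hcl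
    have hO : IsOpen (D ∩ (closure Ω)ᶜ) := hD.inter isClosed_closure.isOpen_compl
    have hpos := hO.measure_pos volume ⟨x, hx, hcl⟩
    have hle : volume (D ∩ (closure Ω)ᶜ) ≤ volume (D ∩ Ωᶜ) :=
      measure_mono (inter_subset_inter_right _ (compl_subset_compl.2 subset_closure))
    rw [hvol0] at hle
    exact absurd hpos (not_lt.2 hle)
  have hDΩ : D ⊆ Ω := by
    intro x hx
    by_contra hxΩ
    have hfr : x ∈ frontier Ω := by
      rw [hΩ.op.frontier_eq]
      exact ⟨hDcl hx, hxΩ⟩
    obtain ⟨y, hy1, hy2⟩ := ((exterior_near hΩ hfr).and_eventually (hD.mem_nhds hx)).exists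
    exact hy1 (hDcl hy2)
  intro x hx
  by_cases hxK : x ∈ K
  · exact hKΩ hxK
  · exact hDΩ (hclo x hx hxK)

end Pool.Agent.H73.IC
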