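import Pool.Agent.H94.IC.Targets3

/-!
# MP_0ee698_an, module PLS: poles exist
-/

open MeasureTheory Set Filter Topology Metric
open scoped ENNReal NNReal ContDiff RealInnerProductSpace

namespace Pool.Agent.H73.IC

open Pool.Agent.H94.IC

theorem ss_pos (j : ℕ) : 0 < ss j := by
  unfold ss
  positivity

theorem ss_le_one (j : ℕ) : ss j ≤ 1 := by
  unfold ss
  exact pow_le_one₀ (by norm_num) (by norm_num)

theorem ss_small {s1 : ℝ} (h : 0 < s1) : ∃ j1 : ℕ, ∀ j, j1 ≤ j → ss j ≤ s1 := by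
  obtain ⟨n, hn⟩ := exists_pow_lt_of_lt_one h (by norm_num : (2 : ℝ)⁻¹ < 1)
  refine ⟨n, fun j hj => ?_⟩
  unfold ss
  refine le_trans ?_ hn.le
  apply pow_le_pow_of_le_one (by norm_num) (by norm_num)
  nlinarith

/-- a vector with small coordinates is small -/
theorem norm_le_of_coords {y : E} {s : ℝ} (hs : 0 ≤ s) (h : ∀ k, |y k| ≤ s / 2) : ‖y‖ ≤ s := by
  have h1 := EuclideanSpace.norm_sq_eq y
  rw [Fin.sum_univ_three] at h1
  simp only [Real.norm_eq_abs, sq_abs] at h1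
  apply le_of_sq_le_sq _ hs
  have h2 : ∀ k, y k ^ 2 ≤ (s / 2) ^ 2 := fun k => sq_le_sq' (by linarith [(abs_le.1 (h k)).1])
    (abs_le.1 (h k)).2
  nlinarith [h2 0, h2 1, h2 2, sq_nonneg s]

/-- the cell of a point -/
noncomputable def fl (s : ℝ) (x : E) : Fin 3 → ℤ := fun k => ⌊2 * x k / s⌋

theorem fl_spec {s : ℝ} (hs : 0 < s) (x : E) (k : Fin 3) :
    (fl s x k : ℝ) * s / 2 ≤ x k ∧ x k < (fl s x k : ℝ) * s / 2 + s / 2 := by
  have h1 := Int.floor_le (2 * x k / s)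
  have h2 := Int.lt_floor_add_one (2 * x k / s)
  rw [le_div_iff₀ hs] at h1
  rw [div_lt_iff₀ hs] at h2
  unfold fl
  constructor <;> linarith

theorem fl_dist {s : ℝ} (hs : 0 < s) (x : E) : dist x (s • lp (fl s x)) ≤ s := by
  rw [dist_eq_norm]
  apply norm_le_of_coords hs.le
  intro k
  obtain ⟨h1, h2⟩ := fl_spec hs x k
  have e : (x - s • lp (fl s x)) k = x k - s * ((fl s x k : ℝ) / 2) := by
    simp [Pool.Agent.H94.IC.lp]
  rw [e, abs_le]
  constructor <;> linarith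

theorem fl_same {s : ℝ} (hs : 0 < s) {x y : E} (h : fl s x = fl s y) : dist x y ≤ s := by
  rw [dist_eq_norm]
  apply norm_le_of_coords hs.le
  intro k
  obtain ⟨h1, h2⟩ := fl_spec hs x k
  obtain ⟨h3, h4⟩ := fl_spec hs y k
  rw [h] at h1 h2
  have e : (x - y) k = x k - y k := rfl
  rw [e, abs_le]
  constructor <;> linarith

theorem fl_finite {s R : ℝ} (hs : 0 < s) {A : Set E} (hA : ∀ x ∈ A, ‖x‖ ≤ R) :
    (fl s '' A).Finite := by
  apply (Set.finite_Icc (fun _ => ⌊-(2 * R / s)⌋ : Fin 3 → ℤ) (fun _ => ⌊2 * R / s⌋)).subset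
  rintro _ ⟨x, hx, rfl⟩
  have h1 : ∀ k, |x k| ≤ R := fun k => by
    have := (PiLp.norm_apply_le x k).trans (hA x hx)
    simpa using this
  rw [mem_Icc]
  constructor
  · intro k
    apply Int.floor_le_floor
    rw [← neg_div]
    apply div_le_div_of_nonneg_right _ hs.le
    linarith [(abs_le.1 (h1 k)).1]
  · intro k
    apply Int.floor_le_floor
    apply div_le_div_of_nonneg_right _ hs.le
    linarith [(abs_le.1 (h1 k)).2]

theorem pls (hX : T_XCK) : T_PLS := by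
  intro Ω hΩ
  obtain ⟨c, s1, hc, hc1, hs1, hcork, -⟩ := hX Ω hΩ
  obtain ⟨j1, hj1⟩ := ss_small hs1
  obtain ⟨R, hR⟩ : ∃ R : ℝ, ∀ x ∈ frontier Ω, ‖x‖ ≤ R := by
    obtain ⟨R, hR⟩ := hΩ.bdd.closure.exists_norm_le
    exact ⟨R, fun x hx => hR x (frontier_subset_closure hx)⟩
  have hfin : ∀ j, (fl (ss j) '' frontier Ω).Finite := fun j => fl_finite (ss_pos j) hR
  set Z : ℕ → Finset (Fin 3 → ℤ) := fun j => (hfin j).toFinset with hZ
  have hex : ∀ j κ, j1 ≤ j → κ ∈ Z j → ∃ p : E, ∃ q ∈ frontier Ω, fl (ss j) q = κ ∧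
      dist p q ≤ ss j ∧ ∀ x ∈ closure Ω, c * ss j ≤ dist x p := by
    intro j κ hj hκ
    obtain ⟨q, hq, rfl⟩ := (hfin j).mem_toFinset.1 hκ
    obtain ⟨p, hp1, hp2⟩ := hcork q hq (ss j) ⟨ss_pos j, hj1 j hj⟩
    exact ⟨p, q, hq, rfl, hp1, hp2⟩
  choose! P hP using hex
  refine ⟨c, j1, Z, P, hc, hc1, ?_, ?_, ?_, ?_⟩
  · intro j hj κ hκ x hx
    obtain ⟨q, hq, h1, h2, h3⟩ := hP j κ hj hκ
    exact h3 x hx
  · intro j hj κ hκ
    obtain ⟨q, hq, h1, h2, h3⟩ := hP j κ hj hκ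
    have h4 := fl_dist (ss_pos j) q
    rw [h1] at h4
    calc dist (P j κ) (ss j • lp κ) ≤ dist (P j κ) q + dist q (ss j • lp κ) := dist_triangle _ _ _
      _ ≤ 2 * ss j := by linarith
  · intro j hj q' hq'
    have hκ : fl (ss j) q' ∈ Z j := (hfin j).mem_toFinset.2 ⟨q', hq', rfl⟩
    obtain ⟨q, hq, h1, h2, h3⟩ := hP j _ hj hκ
    refine ⟨_, hκ, ?_⟩
    have h4 := fl_same (ss_pos j) h1
    calc dist q' (P j (fl (ss j) q')) ≤ dist q' q + dist q (P j (fl (ss j) q')) :=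
          dist_triangle _ _ _
      _ ≤ 2 * ss j := by
        have h5 := dist_comm q q'
        have h6 := dist_comm q (P j (fl (ss j) q'))
        linarith
  · refine ⟨R + 1, fun j hj κ hκ => ?_⟩
    obtain ⟨q, hq, h1, h2, h3⟩ := hP j κ hj hκ
    have h4 := hR q hq
    have h5 : ‖P j κ‖ ≤ ‖q‖ + dist (P j κ) q := by
      rw [dist_eq_norm]
      calc ‖P j κ‖ = ‖q + (P j κ - q)‖ := by rw [add_sub_cancel]
        _ ≤ _ := norm_add_le _ _
    linarith [ss_le_one j]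

end Pool.Agent.H73.IC
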