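import Pool.Agent.H94.IC.Targets3

/-!
# MP_0ee698_an, module IND: the independence lemma
-/

open MeasureTheory Set Filter Topology Metric
open scoped ENNReal NNReal ContDiff RealInnerProductSpace

namespace Pool.Agent.H73.IC

open Pool.Agent.H94.IC

/-- the gradient of a smooth function is continuous -/
theorem gr_continuousAt {O : Set E} {f : E → ℝ} (hO : IsOpen O) (hf : ContDiffOn ℝ ∞ f O) {x : E}
    (hx : x ∈ O) : ContinuousAt (gr f) x := by
  have h1 : ContinuousOn (fderiv ℝ f) O := hf.continuousOn_fderiv_of_isOpen hO (by simp)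
  have h2 : ContinuousAt (fderiv ℝ f) x := h1.continuousAt (hO.mem_nhds hx)
  have h3 : gr f = fun y => (InnerProductSpace.toDual ℝ E).symm (fderiv ℝ f y) := rfl
  rw [h3]
  exact ((InnerProductSpace.toDual ℝ E).symm.continuous.continuousAt).comp h2

abbrev XX (n : ℕ) := (Fin (n + 1) → E) × (Fin (n + 1) → E) × (Fin (n + 1) → ℝ)

noncomputable def GG {n : ℕ} (q : E × ℕ) (z : XX n) : ℝ :=
  ∑ r, z.2.2 r * ⟪gr (HH q.1 q.2) (z.1 r), z.2.1 r⟫

def KK (n : ℕ) : Set (XX n) := {z | (∀ r, 1 ≤ ‖z.1 r‖ ∧ ‖z.1 r‖ ≤ 6) ∧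
  (∀ r r', r ≠ r' → 1 / (n : ℝ) ≤ ‖z.1 r - z.1 r'‖) ∧ (∀ r, ‖z.2.1 r‖ = 1) ∧ (∀ r, |z.2.2 r| ≤ 1) ∧
  ∃ r, |z.2.2 r| = 1}

theorem KK_closed (n : ℕ) : IsClosed (KK n) := by
  have e : KK n = (⋂ r, {z : XX n | 1 ≤ ‖z.1 r‖ ∧ ‖z.1 r‖ ≤ 6}) ∩
      ((⋂ r, ⋂ r', ⋂ (_ : r ≠ r'), {z : XX n | 1 / (n : ℝ) ≤ ‖z.1 r - z.1 r'‖}) ∩
      ((⋂ r, {z : XX n | ‖z.2.1 r‖ = 1}) ∩ ((⋂ r, {z : XX n | |z.2.2 r| ≤ 1}) ∩
      (⋃ r, {z : XX n | |z.2.2 r| = 1})))) := by
    ext z
    simp [KK]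
  rw [e]
  refine IsClosed.inter ?_ (IsClosed.inter ?_ (IsClosed.inter ?_ (IsClosed.inter ?_ ?_)))
  · refine isClosed_iInter fun r => ?_
    have c1 : IsClosed {z : XX n | 1 ≤ ‖z.1 r‖} := isClosed_le continuous_const (by fun_prop)
    have c2 : IsClosed {z : XX n | ‖z.1 r‖ ≤ 6} := isClosed_le (by fun_prop) continuous_const
    exact c1.inter c2
  · refine isClosed_iInter fun r => isClosed_iInter fun r' => isClosed_iInter fun _ => ?_
    exact isClosed_le continuous_const (by fun_prop)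
  · refine isClosed_iInter fun r => ?_
    exact isClosed_eq (by fun_prop) continuous_const
  · refine isClosed_iInter fun r => ?_
    exact isClosed_le (by fun_prop) continuous_const
  · refine isClosed_iUnion_of_finite fun r => ?_
    exact isClosed_eq (by fun_prop) continuous_const

theorem KK_compact (n : ℕ) : IsCompact (KK n) := by
  apply (isCompact_closedBall (0 : XX n) 6).of_isClosed_subset (KK_closed n)
  rintro z ⟨h1, -, h2, h3, -⟩
  rw [mem_closedBall_zero_iff]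
  have a1 : ‖z.1‖ ≤ 6 := (pi_norm_le_iff_of_nonneg (by norm_num)).2 fun r => (h1 r).2
  have a2 : ‖z.2.1‖ ≤ 6 := (pi_norm_le_iff_of_nonneg (by norm_num)).2 fun r => by
    rw [h2 r]; norm_num
  have a3 : ‖z.2.2‖ ≤ 6 := (pi_norm_le_iff_of_nonneg (by norm_num)).2 fun r => by
    rw [Real.norm_eq_abs]
    linarith [h3 r]
  exact norm_prod_le_iff.2 ⟨a1, norm_prod_le_iff.2 ⟨a2, a3⟩⟩

theorem GG_cont (hM : T_MUL) {n : ℕ} (q : E × ℕ) {z : XX n} (hz : ∀ r, z.1 r ≠ 0) :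
    ContinuousAt (GG q) z := by
  have : GG (n := n) q = fun z => ∑ r, z.2.2 r * ⟪gr (HH q.1 q.2) (z.1 r), z.2.1 r⟫ := rfl
  rw [this]
  apply tendsto_finsetSum
  intro r _
  have h1 : ContinuousAt (gr (HH q.1 q.2)) (z.1 r) :=
    gr_continuousAt isOpen_compl_singleton (hM q.1 q.2).1.1 (hz r)
  have h2 : ContinuousAt (fun z : XX n => gr (HH q.1 q.2) (z.1 r)) z :=
    ContinuousAt.comp (f := fun z : XX n => z.1 r) h1 (by fun_prop)
  have h3 : ContinuousAt (fun z : XX n => z.2.1 r) z := by fun_prop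
  have h4 : ContinuousAt (fun z : XX n => z.2.2 r) z := by fun_prop
  exact h4.mul (h2.inner h3)

theorem ind (hD : T_DIP) (hM : T_MUL) : T_IND := by
  intro n hn
  have hn0 : (0 : ℝ) < n := by exact_mod_cast hn
  have hne : ∀ z ∈ KK n, ∀ r, z.1 r ≠ 0 := by
    rintro z ⟨h1, -⟩ r h0
    have := (h1 r).1
    rw [h0, norm_zero] at this
    linarith
  have hex : ∀ z : XX n, z ∈ KK n → ∃ q : E × ℕ, ‖q.1‖ = 1 ∧ 2 ≤ q.2 ∧ GG q z ≠ 0 := by
    intro z hz
    obtain ⟨h1, h2, h3, h4, r, h5⟩ := id hz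
    obtain ⟨w, k, hw, hk, hs⟩ := hD n z.1 z.2.1 z.2.2 (hne z hz) (by
      intro a b hab
      by_contra hcon
      have := h2 a b hcon
      rw [hab, sub_self, norm_zero] at this
      have : 0 < 1 / (n : ℝ) := by positivity
      linarith) h3 ⟨r, by
        intro h0
        rw [h0, abs_zero] at h5
        exact zero_ne_one h5⟩
    exact ⟨(w, k), hw, hk, hs⟩
  choose! q hq1 hq2 hq3 using hex
  obtain ⟨t, htK, ht⟩ := (KK_compact n).elim_nhds_subcover
    (fun z => {z' | |GG (q z) z| / 2 < |GG (q z) z'|}) (by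
      intro z hz
      have hc := (GG_cont hM (q z) (hne z hz)).abs
      have h0 : |GG (q z) z| / 2 < |GG (q z) z| := by
        have : 0 < |GG (q z) z| := abs_pos.2 (hq3 z hz)
        linarith
      exact hc.eventually (lt_mem_nhds h0))
  have hmin : ∃ c0 : ℝ, 0 < c0 ∧ ∀ z ∈ t, c0 ≤ |GG (q z) z| / 2 := by
    have : ∀ s : Finset (XX n), (∀ z ∈ s, z ∈ KK n) → ∃ c0 : ℝ, 0 < c0 ∧
        ∀ z ∈ s, c0 ≤ |GG (q z) z| / 2 := by
      intro s
      classical
      induction s using Finset.induction_on with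
      | empty => exact fun _ => ⟨1, one_pos, by simp⟩
      | insert a s _ ih =>
        intro hs
        obtain ⟨c, hc, h⟩ := ih fun z hz => hs z (Finset.mem_insert_of_mem hz)
        have ha : 0 < |GG (q a) a| / 2 := by
          have := abs_pos.2 (hq3 a (hs a (Finset.mem_insert_self a s)))
          linarith
        refine ⟨min c (|GG (q a) a| / 2), lt_min hc ha, fun z hz => ?_⟩
        rcases Finset.mem_insert.1 hz with rfl | hz
        · exact min_le_right _ _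
        · exact (min_le_left _ _).trans (h z hz)
    exact this t htK
  obtain ⟨c0, hc0, hc⟩ := hmin
  classical
  refine ⟨t.image q, c0, hc0, ?_, ?_⟩
  · intro p hp
    obtain ⟨z, hz, rfl⟩ := Finset.mem_image.1 hp
    exact ⟨hq1 z (htK z hz), hq2 z (htK z hz)⟩
  · intro y nv a h1 h2 h3 h4 h5
    have hz : ((y, nv, a) : XX n) ∈ KK n := ⟨h1, h2, h3, h4, h5⟩
    obtain ⟨z, hzt, hz2⟩ := mem_iUnion₂.1 (ht hz)
    refine ⟨q z, Finset.mem_image_of_mem q hzt, ?_⟩
    exact (hc z hzt).trans (le_of_lt hz2)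

end Pool.Agent.H73.IC
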